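import Pool.Agent.Q37.TD.Gen
import Pool.Agent.Y967.TD.A

/-! Sets invariant under the `3x+d` map in the classes modulo `d`. -/

set_option autoImplicit false

namespace Pool.Agent.Q37.TD

open Finset Filter Topology Pool.Agent.H499R2.CO Pool.Agent.W38.CR Pool.Agent.W38.AF Pool.Agent.Y967.CM
  Pool.Agent.Y967.TD Pool.Agent.Q37.BV

/-- `x ≡ y d` modulo `2 ^ T`, and the window above `y` merges -/
theorem WB_spec_d {d : ℤ} (hd : d % 2 = 1) {T m : ℕ} {x y : ℤ} (hx : x ≡ y * d [ZMOD 2 ^ T])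
    (h : ¬ WB T m y) (k : ℕ) (hk : k < 2 ^ 2 ^ m) :
    (Tz d)^[T] (x + d * k) = (Tz d)^[T] x := by
  have hall : ∀ A ∈ im (cb T y) (Q0 (2 ^ m)), A = fl (cb T y) (0, 0) := by
    by_contra hcon
    apply h
    unfold WB
    rw [bad_one hcon]
    norm_num
  have h1 := hall (fl (cb T y) (0, (k : ℤ))) (by
    unfold im Q0
    apply mem_image_of_mem
    rw [mem_image]
    exact ⟨k, mem_range.2 hk, rfl⟩)
  have h2T : (0 : ℤ) < 2 ^ T := by positivity
  obtain ⟨q, hq⟩ := Int.modEq_iff_dvd.1 hx.symm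
  have hc := cb_decomp T y
  have e : x = 2 ^ (cb T y).length * (q + y / 2 ^ T * d) + d * bv (cb T y) := by
    rw [length_cb]
    linear_combination hq + d * hc
  have h3 := Tz_evd_iter hd (cb T y) (0, (k : ℤ)) (q + y / 2 ^ T * d)
  have h4 := Tz_evd_iter hd (cb T y) (0, 0) (q + y / 2 ^ T * d)
  rw [← e, length_cb] at h3 h4
  rw [evd_zero] at h4
  have e3 : evd d (0, (k : ℤ)) x = x + d * k := by unfold evd; simp
  rw [e3] at h3
  rw [h3, h4, h1]

/-- both sides -/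
theorem WB_both_d {d : ℤ} (hd : d % 2 = 1) {T m : ℕ} {x y : ℤ} (hx : x ≡ y * d [ZMOD 2 ^ T])
    (h : ¬ WB T m (y + -2 ^ (2 ^ m - 1))) {r : ℤ} (hr : |r| < 2 ^ (2 ^ m - 1)) :
    (Tz d)^[T] (x + d * r) = (Tz d)^[T] x := by
  have hm : 2 ^ m = (2 ^ m - 1) + 1 := by
    have : 0 < 2 ^ m := by positivity
    omega
  have h2 : (2 : ℕ) ^ 2 ^ m = 2 * 2 ^ (2 ^ m - 1) := by
    conv_lhs => rw [hm]
    rw [pow_succ]; ring
  have hHpos : (0 : ℤ) < 2 ^ (2 ^ m - 1) := by positivity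
  have hx' : x + d * -2 ^ (2 ^ m - 1) ≡ (y + -2 ^ (2 ^ m - 1)) * d [ZMOD 2 ^ T] := by
    have e : (y + -2 ^ (2 ^ m - 1)) * d = y * d + d * -2 ^ (2 ^ m - 1) := by ring
    rw [e]
    exact hx.add_right _
  have key : ∀ s : ℤ, |s| < 2 ^ (2 ^ m - 1) → (Tz d)^[T] (x + d * s) = (Tz d)^[T] (x + d * -2 ^ (2 ^ m - 1)) := by
    intro s hs
    have hs1 := abs_lt.1 hs
    have h3 := WB_spec_d hd hx' h (2 ^ (2 ^ m - 1) + s).toNat (by
      rw [h2]
      have h4 : (((2 ^ (2 ^ m - 1) + s).toNat : ℕ) : ℤ) < ((2 * 2 ^ (2 ^ m - 1) : ℕ) : ℤ) := by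
        rw [Int.toNat_of_nonneg (by linarith)]
        push_cast
        linarith
      exact_mod_cast h4)
    rw [Int.toNat_of_nonneg (by linarith)] at h3
    rw [← h3]
    congr 1
    ring
  have h3 := key 0 (by rw [abs_zero]; exact hHpos)
  rw [mul_zero, add_zero] at h3
  rw [key r hr, h3]

/-- invariance -/
def InvD (d : ℤ) (S : Set ℤ) : Prop := ∀ x : ℤ, x ∈ S ↔ Tz d x ∈ S

theorem InvD.iter {d : ℤ} {S : Set ℤ} (hS : InvD d S) (t : ℕ) : ∀ x : ℤ, x ∈ S ↔ (Tz d)^[t] x ∈ S := by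
  induction t with
  | zero => intro x; rfl
  | succ t ih =>
    intro x
    rw [Function.iterate_succ_apply, ← ih]
    exact hS x

open Classical in
/-- the part of `S` in a class modulo `D` -/
noncomputable def FD (S : Set ℤ) (s : ℤ) (D c : ℕ) (n : ℤ) : ℝ := if 1 ≤ n ∧ s * (D * n - c) ∈ S then 1 else 0

theorem FD_win {d : ℤ} (hd : d % 2 = 1) {S : Set ℤ} (hS : InvD d S) {s : ℤ} (hs : s = 1 ∨ s = -1) {D : ℕ}
    (hD : (D : ℤ) = |d|) (c : ℕ) : WinB (FD S s D c) := by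
  constructor
  · intro n
    unfold FD
    split_ifs <;> norm_num
  · intro T m
    have hcop : IsCoprime d ((2 : ℤ) ^ (T + 1)) := by
      apply IsCoprime.pow_right
      exact ⟨1, -(d / 2), by omega⟩
    obtain ⟨u, v, huv⟩ := hcop
    have hu : u % 2 = 1 := by
      rcases Int.emod_two_eq_zero_or_one u with h | h
      · exfalso
        obtain ⟨w, hw⟩ : ∃ w, u = 2 * w := ⟨u / 2, by omega⟩
        rw [hw, pow_succ] at huv
        have : 2 * (w * d + v * 2 ^ T) = 1 := by linear_combination huv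
        omega
      · exact h
    have hD2 : (D : ℤ) % 2 = 1 := by rw [hD]; rcases abs_choice d with h | h <;> rw [h] <;> omega
    have hsig : ∃ σ : ℤ, (σ = 1 ∨ σ = -1) ∧ s * D = d * σ := by
      rw [hD]
      rcases abs_choice d with h | h <;> rw [h]
      · exact ⟨s, hs, by ring⟩
      · exact ⟨-s, by rcases hs with h | h <;> rw [h] <;> norm_num, by ring⟩
    obtain ⟨σ, hσ, hσ2⟩ := hsig
    refine ⟨s * D * u, -(s * c * u) + -2 ^ (2 ^ m - 1), ?_, ?_⟩
    · have h1 : s % 2 = 1 := by rcases hs with rfl | rfl <;> norm_num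
      rw [Int.mul_emod, Int.mul_emod s, h1, hD2, hu]
      norm_num
    · intro n hn hW i h0 hi
      set x : ℤ := s * (D * n - c) with hx
      have e1 : s * D * u * n + (-(s * c * u) + -2 ^ (2 ^ m - 1)) = x * u + -2 ^ (2 ^ m - 1) := by
        rw [hx]; ring
      rw [e1] at hW
      have hxy : x ≡ (x * u) * d [ZMOD 2 ^ T] := by
        apply Int.ModEq.symm
        rw [Int.modEq_iff_dvd]
        exact ⟨2 * v * x, by rw [pow_succ] at huv; linear_combination -x * huv⟩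
      have h2 : (Tz d)^[T] (x + d * (σ * i)) = (Tz d)^[T] x := by
        apply WB_both_d hd hxy hW
        rcases hσ with rfl | rfl
        · rw [one_mul, abs_of_nonneg h0]; exact hi
        · rw [neg_one_mul, abs_neg, abs_of_nonneg h0]; exact hi
      have e2 : s * (D * (n + i) - c) = x + d * (σ * i) := by
        rw [hx]; linear_combination i * hσ2
      have h3 : s * (D * (n + i) - c) ∈ S ↔ s * (D * n - c) ∈ S := by
        rw [e2, hS.iter T, h2, ← hS.iter T]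
      unfold FD
      by_cases h4 : s * (D * n - c) ∈ S
      · rw [if_pos ⟨by omega, h3.2 h4⟩, if_pos ⟨hn, h4⟩]
      · rw [if_neg (fun h => h4 (h3.1 h.2)), if_neg (fun h => h4 h.2)]

/-- the positive integers up to `N` in classes modulo `D` -/
theorem split_classes {D : ℕ} (hD : 1 ≤ D) (N : ℕ) (g : ℤ → ℝ) :
    ∑ n ∈ Ico (1 : ℤ) (1 + N), g n =
      ∑ c ∈ range D, ∑ m ∈ Ico (1 : ℤ) (1 + ((N + c) / D : ℕ)), g (D * m - c) := by
  have hD0 : (0 : ℤ) < D := by exact_mod_cast hD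
  have h1 : ∑ n ∈ Ico (1 : ℤ) (1 + N), g n =
      ∑ c ∈ range D, ∑ n ∈ Ico (1 : ℤ) (1 + N) with ((-n) % (D : ℤ)).toNat = c, g n := by
    rw [sum_fiberwise_of_maps_to]
    intro n _
    rw [mem_range]
    have h2 := Int.emod_nonneg (-n) hD0.ne'
    have h3 := Int.emod_lt_of_pos (-n) hD0
    omega
  rw [h1]
  apply sum_congr rfl
  intro c hc
  rw [mem_range] at hc
  symm
  apply sum_bij (fun m _ => (D : ℤ) * m - c)
  · intro m hm
    rw [mem_Ico] at hm
    have h2 : m ≤ ((N + c) / D : ℕ) := by omega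
    have h3 : (D : ℤ) * (((N + c) / D : ℕ) : ℤ) ≤ N + c := by
      have := Nat.mul_div_le (N + c) D
      exact_mod_cast this
    have h4 : (D : ℤ) * m ≤ D * (((N + c) / D : ℕ) : ℤ) := mul_le_mul_of_nonneg_left h2 hD0.le
    have h5 : (D : ℤ) * 1 ≤ D * m := mul_le_mul_of_nonneg_left hm.1 hD0.le
    have h6 : (c : ℤ) < D := by exact_mod_cast hc
    rw [mem_filter, mem_Ico]
    refine ⟨⟨by linarith, by linarith⟩, ?_⟩
    have e : -((D : ℤ) * m - c) = c + D * (-m) := by ring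
    rw [e, Int.add_mul_emod_self_left, Int.emod_eq_of_lt (by positivity) h6]
    exact Int.toNat_natCast c
  · intro a _ b _ hab
    have : (D : ℤ) * a = D * b := by linarith
    exact mul_left_cancel₀ hD0.ne' this
  · intro n hn
    rw [mem_filter, mem_Ico] at hn
    obtain ⟨⟨h2, h3⟩, h4⟩ := hn
    have h5 := Int.emod_nonneg (-n) hD0.ne'
    have h6 : (-n) % (D : ℤ) = c := by omega
    have h7 := Int.mul_ediv_add_emod (-n) D
    refine ⟨-((-n) / (D : ℤ)), ?_, ?_⟩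
    · rw [mem_Ico]
      have e : (D : ℤ) * (-((-n) / (D : ℤ))) = n + c := by linarith
      constructor
      · by_contra hcon
        have h8 : -((-n) / (D : ℤ)) ≤ 0 := by omega
        have h9 : (D : ℤ) * (-((-n) / (D : ℤ))) ≤ 0 := mul_nonpos_of_nonneg_of_nonpos hD0.le h8
        have : (0 : ℤ) ≤ c := Nat.cast_nonneg c
        linarith
      · have h8 : -((-n) / (D : ℤ)) ≤ (((N + c) / D : ℕ) : ℤ) := by
          push_cast
          rw [Int.le_ediv_iff_mul_le hD0, mul_comm, e]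
          omega
        omega
    · linarith
  · intro m _
    rfl

theorem bal_class {q D : ℕ} {w : ℤ} (hw : (q : ℤ) ∣ D * w - 1) (a m : ℤ) (c : ℕ) :
    bal q a (D * m - c) = bal q (w * (a + c)) m := by
  unfold bal ind
  congr 1
  have h : (q : ℤ) ∣ D * m - c - a ↔ (q : ℤ) ∣ m - w * (a + c) := by
    obtain ⟨k, hk⟩ := hw
    constructor
    · rintro ⟨t, ht⟩
      exact ⟨w * t - k * m, by linear_combination w * ht - m * hk⟩
    · rintro ⟨t, ht⟩
      exact ⟨D * t + k * (a + c), by linear_combination D * ht + (a + c) * hk⟩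
  by_cases h1 : (q : ℤ) ∣ m - w * (a + c)
  · rw [if_pos h1, if_pos (h.2 h1)]
  · rw [if_neg h1, if_neg (fun h2 => h1 (h.1 h2))]

theorem dF_split {D : ℕ} (hD : 1 ≤ D) (S : Set ℤ) (s : ℤ) (N : ℕ) {q : ℕ} {w : ℤ}
    (hw : (q : ℤ) ∣ D * w - 1) (a : ℤ) :
    dF (FS S s) N q a = ∑ c ∈ range D, dF (FD S s D c) ((N + c) / D) q (w * (a + c)) := by
  unfold dF
  rw [split_classes hD]
  apply sum_congr rfl
  intro c hc
  rw [mem_range] at hc
  apply sum_congr rfl
  intro m hm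
  rw [mem_Ico] at hm
  rw [bal_class hw]
  congr 1
  have hD0 : (0 : ℤ) < D := by exact_mod_cast hD
  have h5 : (D : ℤ) * 1 ≤ D * m := mul_le_mul_of_nonneg_left hm.1 hD0.le
  have h6 : (c : ℤ) < D := by exact_mod_cast hc
  unfold FS FD
  by_cases h : s * (D * m - c) ∈ S
  · rw [if_pos ⟨by linarith, h⟩, if_pos ⟨hm.1, h⟩]
  · rw [if_neg (fun h2 => h h2.2), if_neg (fun h2 => h h2.2)]

theorem exists_inv {q D : ℕ} (h : q.Coprime D) : ∃ w : ℤ, (q : ℤ) ∣ D * w - 1 := by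
  have h1 : IsCoprime (q : ℤ) (D : ℤ) := Nat.isCoprime_iff_coprime.2 h
  obtain ⟨u, v, huv⟩ := h1
  exact ⟨v, -u, by linear_combination huv⟩

end Pool.Agent.Q37.TD
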