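import Pool.Agent.Q37.TD.Cls

/-! The level of distribution and the variance for the `3x+d` maps. -/

set_option autoImplicit false

namespace Pool.Agent.Q37.TD

open Finset Filter Topology Pool.Agent.Q37.BV

theorem dF_periodic (F : ℤ → ℝ) (M q : ℕ) (a k : ℤ) : dF F M q (a + q * k) = dF F M q a := by
  unfold dF bal ind
  apply sum_congr rfl
  intro n _
  congr 2
  have h : (q : ℤ) ∣ n - (a + q * k) ↔ (q : ℤ) ∣ n - a := by
    constructor
    · rintro ⟨t, ht⟩; exact ⟨t + k, by linear_combination ht⟩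
    · rintro ⟨t, ht⟩; exact ⟨t - k, by linear_combination ht⟩
  by_cases h1 : (q : ℤ) ∣ n - a
  · rw [if_pos h1, if_pos (h.2 h1)]
  · rw [if_neg h1, if_neg (fun h2 => h1 (h.1 h2))]

theorem perm_sum {q D : ℕ} (hq : 1 ≤ q) {w : ℤ} (hw : (q : ℤ) ∣ D * w - 1) (c : ℕ) {f : ℤ → ℝ}
    (hf : ∀ a k : ℤ, f (a + q * k) = f a) :
    ∑ a ∈ range q, f (w * (((a : ℕ) : ℤ) + c)) = ∑ a ∈ range q, f ((a : ℕ) : ℤ) := by
  have hq0 : (0 : ℤ) < q := by exact_mod_cast hq
  have hmod : ∀ x : ℤ, f (x % q) = f x := by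
    intro x
    have h := Int.emod_add_mul_ediv x q
    conv_rhs => rw [← h]
    rw [hf]
  refine sum_nbij' (fun a => ((w * (((a : ℕ) : ℤ) + c)) % q).toNat) (fun b => ((D * ((b : ℕ) : ℤ) - c) % q).toNat)
    ?_ ?_ ?_ ?_ ?_
  · intro a _
    rw [mem_range]
    have h2 := Int.emod_nonneg (w * (((a : ℕ) : ℤ) + c)) hq0.ne'
    have h3 := Int.emod_lt_of_pos (w * (((a : ℕ) : ℤ) + c)) hq0
    omega
  · intro b _
    rw [mem_range]
    have h2 := Int.emod_nonneg (D * ((b : ℕ) : ℤ) - c) hq0.ne'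
    have h3 := Int.emod_lt_of_pos (D * ((b : ℕ) : ℤ) - c) hq0
    omega
  · intro a ha
    rw [mem_range] at ha
    have h2 := Int.emod_nonneg (w * (((a : ℕ) : ℤ) + c)) hq0.ne'
    rw [Int.toNat_of_nonneg h2]
    have h4 : (D * ((w * (((a : ℕ) : ℤ) + c)) % q) - c) % (q : ℤ) = a := by
      have h5 : (D * ((w * (((a : ℕ) : ℤ) + c)) % q) - c : ℤ) ≡ a [ZMOD q] := by
        have h6 : ((w * (((a : ℕ) : ℤ) + c)) % q) ≡ w * (((a : ℕ) : ℤ) + c) [ZMOD q] := Int.mod_modEq _ _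
        refine ((h6.mul_left (D : ℤ)).sub_right (c : ℤ)).trans ?_
        apply Int.ModEq.symm
        rw [Int.modEq_iff_dvd]
        obtain ⟨k, hk⟩ := hw
        exact ⟨k * (a + c), by linear_combination (((a : ℕ) : ℤ) + c) * hk⟩
      rw [h5, Int.emod_eq_of_lt (by positivity) (by exact_mod_cast ha)]
    rw [h4]
    exact Int.toNat_natCast a
  · intro b hb
    rw [mem_range] at hb
    have h2 := Int.emod_nonneg (D * ((b : ℕ) : ℤ) - c) hq0.ne'
    rw [Int.toNat_of_nonneg h2]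
    have h4 : (w * (((D * ((b : ℕ) : ℤ) - c) % q) + c)) % (q : ℤ) = b := by
      have h5 : (w * (((D * ((b : ℕ) : ℤ) - c) % q) + c) : ℤ) ≡ b [ZMOD q] := by
        have h6 : ((D * ((b : ℕ) : ℤ) - c) % q) ≡ D * ((b : ℕ) : ℤ) - c [ZMOD q] := Int.mod_modEq _ _
        refine ((h6.add_right (c : ℤ)).mul_left w).trans ?_
        apply Int.ModEq.symm
        rw [Int.modEq_iff_dvd]
        obtain ⟨k, hk⟩ := hw
        exact ⟨k * b, by linear_combination ((b : ℕ) : ℤ) * hk⟩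
      rw [h5, Int.emod_eq_of_lt (by positivity) (by exact_mod_cast hb)]
    rw [h4]
    exact Int.toNat_natCast b
  · intro a _
    have h2 := Int.emod_nonneg (w * (((a : ℕ) : ℤ) + c)) hq0.ne'
    rw [Int.toNat_of_nonneg h2, hmod]

/-- the level -/
noncomputable def levD (δ : ℝ) (x : ℝ) : ℝ := √ x * Real.exp (Real.log x ^ (1 / 2 - δ))

theorem levD_mono {δ : ℝ} (hδ : δ < 1 / 2) {x y : ℝ} (hx : 1 ≤ x) (hxy : x ≤ y) : levD δ x ≤ levD δ y := by
  unfold levD
  have h1 : 0 ≤ Real.log x := Real.log_nonneg hx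
  have h2 : Real.log x ≤ Real.log y := Real.log_le_log (by linarith) hxy
  exact mul_le_mul (Real.sqrt_le_sqrt hxy) (Real.exp_le_exp.2 (Real.rpow_le_rpow h1 h2 (by linarith)))
    (Real.exp_pos _).le (Real.sqrt_nonneg _)

theorem level_d {δ : ℝ} (hδ : 0 < δ) (hδ2 : δ < 1 / 2) {ε : ℝ} (hε : 0 < ε) : ∃ N₀ : ℕ, 1 ≤ N₀ ∧ ∀ d : ℤ, d % 2 = 1 →
    ∀ S : Set ℤ, InvD d S → ∀ s : ℤ, s = 1 ∨ s = -1 → ∀ N : ℕ, N₀ * d.natAbs ≤ N → ∀ Q : ℕ, 1 ≤ Q →
    (Q : ℝ) ≤ levD δ ((N : ℝ) / d.natAbs) → ∀ a : ℕ → ℤ,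
      ∑ q ∈ Ico Q (2 * Q) with q.Coprime d.natAbs, |dF (FS S s) N q (a q)| ≤ ε * N := by
  classical
  obtain ⟨N₁, h1⟩ := level_genB hδ (show 0 < ε / 2 by positivity)
  refine ⟨max N₁ 1, le_max_right _ _, fun d hd S hS s hs N hN Q hQ hQl a => ?_⟩
  set D := d.natAbs with hDdef
  have hD1 : 1 ≤ D := by
    rw [hDdef]
    have : d ≠ 0 := by rintro rfl; norm_num at hd
    have := Int.natAbs_pos.2 this
    omega
  have hDz : (D : ℤ) = |d| := by rw [hDdef]; exact Int.natCast_natAbs d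
  have hN1 : N₁ * D ≤ N := (Nat.mul_le_mul_right D (le_max_left _ _)).trans hN
  have hND : D ≤ N := by
    have := (Nat.mul_le_mul_right D (le_max_right N₁ 1)).trans hN
    rwa [one_mul] at this
  have hD0 : (0 : ℝ) < D := by exact_mod_cast hD1
  have hNDr : (D : ℝ) ≤ N := by exact_mod_cast hND
  set n' := N / D + 1 with hn'
  have hn1 : N₁ ≤ n' := by
    have : N₁ ≤ N / D := (Nat.le_div_iff_mul_le hD1).2 hN1
    omega
  have hMc : ∀ c ∈ range D, (N + c) / D ≤ n' := by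
    intro c hc
    rw [mem_range] at hc
    calc (N + c) / D ≤ (N + D) / D := Nat.div_le_div_right (by omega)
      _ = n' := Nat.add_div_right N hD1
  have hx1 : 1 ≤ (N : ℝ) / D := by rw [le_div_iff₀ hD0]; linarith
  have hxn : (N : ℝ) / D ≤ (n' : ℕ) := by
    rw [hn']
    have := Nat.lt_floor_add_one ((N : ℝ) / D)
    rw [Nat.floor_div_natCast, Nat.floor_natCast] at this
    push_cast
    exact this.le
  have hlev : (Q : ℝ) ≤ lev δ n' := hQl.trans (levD_mono hδ2 hx1 hxn)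
  have hw : ∀ q : ℕ, ∃ w : ℤ, q.Coprime D → (q : ℤ) ∣ D * w - 1 := by
    intro q
    by_cases h : q.Coprime D
    · obtain ⟨w, hw⟩ := exists_inv h
      exact ⟨w, fun _ => hw⟩
    · exact ⟨0, fun h2 => absurd h2 h⟩
  choose w hw using hw
  calc ∑ q ∈ Ico Q (2 * Q) with q.Coprime D, |dF (FS S s) N q (a q)|
      ≤ ∑ q ∈ Ico Q (2 * Q) with q.Coprime D, ∑ c ∈ range D, |dF (FD S s D c) ((N + c) / D) q (w q * (a q + c))| := by
        apply sum_le_sum
        intro q hq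
        rw [mem_filter] at hq
        rw [dF_split hD1 S s N (hw q hq.2)]
        exact abs_sum_le_sum_abs _ _
    _ ≤ ∑ q ∈ Ico Q (2 * Q), ∑ c ∈ range D, |dF (FD S s D c) ((N + c) / D) q (w q * (a q + c))| :=
        sum_le_sum_of_subset_of_nonneg (filter_subset _ _) fun _ _ _ => sum_nonneg fun _ _ => abs_nonneg _
    _ = ∑ c ∈ range D, ∑ q ∈ Ico Q (2 * Q), |dF (FD S s D c) ((N + c) / D) q (w q * (a q + c))| := sum_comm
    _ ≤ ∑ c ∈ range D, ε / 2 * n' := by
        apply sum_le_sum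
        intro c hc
        exact h1 (FD S s D c) (FD_win hd hS hs hDz c) n' hn1 Q hQ hlev _ (hMc c hc) (fun q => w q * (a q + c))
    _ = D * (ε / 2 * n') := by rw [sum_const, card_range, nsmul_eq_mul]
    _ ≤ ε * N := by
        have h2 : (D : ℝ) * n' ≤ N + D := by
          have h3 : D * (N / D) ≤ N := Nat.mul_div_le N D
          have h4 : (D : ℝ) * ((N / D : ℕ) : ℝ) ≤ N := by exact_mod_cast h3
          rw [hn']; push_cast; linarith
        have h3 : (D : ℝ) * (ε / 2 * n') = ε / 2 * (D * n') := by ring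
        rw [h3]
        have h4 : ε / 2 * (D * n') ≤ ε / 2 * (N + D) := mul_le_mul_of_nonneg_left h2 (by positivity)
        have h5 : ε / 2 * ((N : ℝ) + D) ≤ ε / 2 * (N + N) := mul_le_mul_of_nonneg_left (by linarith) (by positivity)
        linarith

theorem bdh_d {ε : ℝ} (hε : 0 < ε) : ∃ N₀ : ℕ, 1 ≤ N₀ ∧ ∀ d : ℤ, d % 2 = 1 →
    ∀ S : Set ℤ, InvD d S → ∀ s : ℤ, s = 1 ∨ s = -1 → ∀ N : ℕ, N₀ * d.natAbs ≤ N → ∀ Q : ℕ, 1 ≤ Q →
      ∑ q ∈ Ico Q (2 * Q) with q.Coprime d.natAbs, ∑ a ∈ range q, (dF (FS S s) N q ((a : ℕ) : ℤ)) ^ 2 ≤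
        ε * N ^ 2 + 288 * Q * d.natAbs * N := by
  classical
  obtain ⟨N₁, h1⟩ := bdhB (show 0 < ε / 2 by positivity)
  refine ⟨max N₁ 1, le_max_right _ _, fun d hd S hS s hs N hN Q hQ => ?_⟩
  set D := d.natAbs with hDdef
  have hD1 : 1 ≤ D := by
    rw [hDdef]
    have : d ≠ 0 := by rintro rfl; norm_num at hd
    have := Int.natAbs_pos.2 this
    omega
  have hDz : (D : ℤ) = |d| := by rw [hDdef]; exact Int.natCast_natAbs d
  have hN1 : N₁ * D ≤ N := (Nat.mul_le_mul_right D (le_max_left _ _)).trans hN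
  have hND : D ≤ N := by
    have := (Nat.mul_le_mul_right D (le_max_right N₁ 1)).trans hN
    rwa [one_mul] at this
  have hD0 : (0 : ℝ) < D := by exact_mod_cast hD1
  have hNDr : (D : ℝ) ≤ N := by exact_mod_cast hND
  have hN0 : (0 : ℝ) ≤ N := Nat.cast_nonneg _
  have hMge : ∀ c, N₁ ≤ (N + c) / D := by
    intro c
    rw [Nat.le_div_iff_mul_le hD1]
    omega
  have hMle : ∀ c ∈ range D, (((N + c) / D : ℕ) : ℝ) ≤ 2 * N / D := by
    intro c hc
    rw [mem_range] at hc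
    have hcD : (c : ℝ) ≤ D := by exact_mod_cast hc.le
    calc (((N + c) / D : ℕ) : ℝ) ≤ ((N + c : ℕ) : ℝ) / D := Nat.cast_div_le
      _ ≤ 2 * N / D := by
          apply div_le_div_of_nonneg_right _ hD0.le
          push_cast
          linarith
  have hMsum : ∑ c ∈ range D, (((N + c) / D : ℕ) : ℝ) = N := by
    have h2 := split_classes hD1 N (fun _ => (1 : ℝ))
    rw [sum_const, Int.card_Ico] at h2
    have e : (1 + (N : ℤ) - 1).toNat = N := by omega
    rw [e, nsmul_eq_mul, mul_one] at h2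
    rw [h2]
    apply sum_congr rfl
    intro c _
    generalize (N + c) / D = K
    rw [sum_const, Int.card_Ico]
    have e : (1 + (K : ℤ) - 1).toNat = K := by omega
    rw [e, nsmul_eq_mul, mul_one]
  have hw : ∀ q : ℕ, ∃ w : ℤ, q.Coprime D → (q : ℤ) ∣ D * w - 1 := by
    intro q
    by_cases h : q.Coprime D
    · obtain ⟨w, hw⟩ := exists_inv h
      exact ⟨w, fun _ => hw⟩
    · exact ⟨0, fun h2 => absurd h2 h⟩
  choose w hw using hw
  calc ∑ q ∈ Ico Q (2 * Q) with q.Coprime D, ∑ a ∈ range q, (dF (FS S s) N q ((a : ℕ) : ℤ)) ^ 2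
      ≤ ∑ q ∈ Ico Q (2 * Q) with q.Coprime D, ∑ a ∈ range q,
          D * ∑ c ∈ range D, (dF (FD S s D c) ((N + c) / D) q (w q * (((a : ℕ) : ℤ) + c))) ^ 2 := by
        apply sum_le_sum
        intro q hq
        rw [mem_filter] at hq
        apply sum_le_sum
        intro a _
        rw [dF_split hD1 S s N (hw q hq.2)]
        have h2 := sq_sum_le_card_mul_sum_sq (s := range D)
          (f := fun c => dF (FD S s D c) ((N + c) / D) q (w q * (((a : ℕ) : ℤ) + c)))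
        rw [card_range] at h2
        exact h2
    _ = ∑ q ∈ Ico Q (2 * Q) with q.Coprime D,
          D * ∑ c ∈ range D, ∑ a ∈ range q, (dF (FD S s D c) ((N + c) / D) q ((a : ℕ) : ℤ)) ^ 2 := by
        apply sum_congr rfl
        intro q hq
        rw [mem_filter, mem_Ico] at hq
        rw [← mul_sum, sum_comm]
        congr 1
        apply sum_congr rfl
        intro c _
        exact perm_sum (by omega) (hw q hq.2) c (f := fun x => (dF (FD S s D c) ((N + c) / D) q x) ^ 2)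
          (fun a k => by rw [dF_periodic])
    _ ≤ ∑ q ∈ Ico Q (2 * Q),
          D * ∑ c ∈ range D, ∑ a ∈ range q, (dF (FD S s D c) ((N + c) / D) q ((a : ℕ) : ℤ)) ^ 2 :=
        sum_le_sum_of_subset_of_nonneg (filter_subset _ _) fun _ _ _ =>
          mul_nonneg hD0.le (sum_nonneg fun _ _ => sum_nonneg fun _ _ => sq_nonneg _)
    _ = D * ∑ c ∈ range D, ∑ q ∈ Ico Q (2 * Q), ∑ a ∈ range q, (dF (FD S s D c) ((N + c) / D) q ((a : ℕ) : ℤ)) ^ 2 := by
        rw [← mul_sum, sum_comm]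
    _ ≤ D * ∑ c ∈ range D, (ε / 2 * (2 * N / D * (((N + c) / D : ℕ) : ℝ)) + 288 * Q * (((N + c) / D : ℕ) : ℝ)) := by
        apply mul_le_mul_of_nonneg_left _ hD0.le
        apply sum_le_sum
        intro c hc
        refine (h1 (FD S s D c) (FD_win hd hS hs hDz c) _ (hMge c) Q hQ).trans ?_
        have h2 : (((N + c) / D : ℕ) : ℝ) ^ 2 ≤ 2 * N / D * (((N + c) / D : ℕ) : ℝ) := by
          rw [sq]
          exact mul_le_mul_of_nonneg_right (hMle c hc) (Nat.cast_nonneg _)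
        have h3 := mul_le_mul_of_nonneg_left h2 (show 0 ≤ ε / 2 by positivity)
        linarith
    _ = ε * N ^ 2 + 288 * Q * D * N := by
        rw [sum_add_distrib, ← mul_sum, ← mul_sum, ← mul_sum, hMsum]
        field_simp

end Pool.Agent.Q37.TD
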