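import Pool.Agent.Q37.TD.Lev
import Pool.Agent.H668.SM.D

/-! Small elements of the invariant sets of the `3x+d` maps in almost all residue classes. -/

set_option autoImplicit false

namespace Pool.Agent.Q37.TD

open Finset Filter Topology Pool.Agent.Q37.BV Pool.Agent.H499R2.CO

/-- The number of the elements `x` of `S` with `0 < s x ≤ N` and `s x ≡ a` modulo `q`. -/
noncomputable def cnt (S : Set ℤ) (s : ℤ) (N q : ℕ) (a : ℤ) : ℕ :=
  {x : ℤ | 0 < s * x ∧ s * x ≤ N ∧ s * x ≡ a [ZMOD q] ∧ x ∈ S}.ncard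

/-- missed classes -/
def Miss (S : Set ℤ) (s d : ℤ) (X Q : ℕ) : Set (ℕ × ℕ) :=
  {p : ℕ × ℕ | Q ≤ p.1 ∧ p.1 < 2 * Q ∧ p.1.Coprime d.natAbs ∧ p.2 < p.1 ∧
    ∀ x ∈ S, 0 < s * x → s * x ≤ X → ¬ s * x ≡ p.2 [ZMOD p.1]}

theorem modEq_iff (n a q : ℤ) : n ≡ a [ZMOD q] ↔ q ∣ n - a := by
  rw [Int.modEq_comm, Int.modEq_iff_dvd]

theorem cnt_eq {s : ℤ} (hs : s = 1 ∨ s = -1) (S : Set ℤ) (N q : ℕ) (a : ℤ) :
    (cnt S s N q a : ℝ) = ∑ n ∈ Ico (1 : ℤ) (1 + N), ind q a n * FS S s n := by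
  classical
  have hss : ∀ x : ℤ, s * (s * x) = x := by intro x; rcases hs with rfl | rfl <;> ring
  have e0 : cnt S s N q a = {n : ℕ | 1 ≤ n ∧ n ≤ N ∧ s * (n : ℤ) ∈ {x : ℤ | s * x ≡ a [ZMOD q] ∧ x ∈ S}}.ncard :=
    side_ncard hs {x : ℤ | s * x ≡ a [ZMOD q] ∧ x ∈ S} N
  have e1 : {n : ℕ | 1 ≤ n ∧ n ≤ N ∧ s * (n : ℤ) ∈ {x : ℤ | s * x ≡ a [ZMOD q] ∧ x ∈ S}} =
      ((Icc 1 N).filter (fun n : ℕ => (q : ℤ) ∣ (n : ℤ) - a ∧ s * (n : ℤ) ∈ S) : Finset ℕ) := by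
    ext n
    simp only [Set.mem_ofPred_eq, coe_filter, mem_Icc, modEq_iff, and_assoc, hss]
  rw [e0, e1, Set.ncard_coe_finset, card_filter, sum_Ico_nat]
  push_cast
  apply sum_congr rfl
  intro n hn
  rw [mem_Icc] at hn
  have h0 : (1 : ℤ) ≤ (n : ℤ) := by exact_mod_cast hn.1
  unfold ind FS
  by_cases h1 : (q : ℤ) ∣ (n : ℤ) - a
  · by_cases h2 : s * (n : ℤ) ∈ S
    · rw [if_pos ⟨h1, h2⟩, if_pos h1, if_pos ⟨h0, h2⟩, mul_one]
    · rw [if_neg (fun h => h2 h.2), if_pos h1, if_neg (fun h => h2 h.2), mul_zero]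
  · rw [if_neg (fun h => h1 h.1), if_neg h1, zero_mul]

theorem dF_cnt {s : ℤ} (hs : s = 1 ∨ s = -1) (S : Set ℤ) (N q : ℕ) (a : ℤ) :
    dF (FS S s) N q a = (cnt S s N q a : ℝ) - cnt S s N 1 0 / q := by
  rw [cnt_eq hs, cnt_eq hs]
  unfold dF bal
  rw [sum_div, ← sum_sub_distrib]
  apply sum_congr rfl
  intro n _
  have : ind 1 0 n = 1 := by unfold ind; rw [if_pos (by simp)]
  rw [this]
  ring

theorem miss_small {d : ℤ} (hd : d % 2 = 1) {S : Set ℤ} (hS : InvD d S) {s : ℤ} (hs : s = 1 ∨ s = -1) {l : ℝ}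
    (hl0 : 0 < l) (hl : ∀ᶠ N : ℕ in atTop, l * N ≤ ({n : ℕ | 1 ≤ n ∧ n ≤ N ∧ s * (n : ℤ) ∈ S}.ncard : ℝ))
    {ε : ℝ} (hε : 0 < ε) : ∃ K : ℕ, ∃ Q₀ : ℕ, ∀ Q : ℕ, Q₀ ≤ Q → ((Miss S s d (K * Q) Q).ncard : ℝ) ≤ ε * Q ^ 2 := by
  classical
  obtain ⟨N₁, -, h1⟩ := bdh_d (show 0 < ε * l ^ 2 / 16 by positivity)
  set D := d.natAbs with hD
  have hD0 : (0 : ℝ) ≤ D := Nat.cast_nonneg _
  set K : ℕ := ⌈288 * 16 * D / (ε * l ^ 2)⌉₊ + 1 with hK
  have hK1 : 1 ≤ K := by omega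
  have hK0 : (0 : ℝ) < K := by exact_mod_cast hK1
  have hKε : 288 * 16 * D / (ε * l ^ 2) ≤ K := by
    rw [hK]; push_cast
    have := Nat.le_ceil (288 * 16 * D / (ε * l ^ 2))
    linarith
  obtain ⟨N₂, h2⟩ := eventually_atTop.1 hl
  refine ⟨K, max (max (N₁ * D) N₂) 1, fun Q hQ => ?_⟩
  have hQ1 : N₁ * D ≤ Q := ((le_max_left _ _).trans (le_max_left _ _)).trans hQ
  have hQ2 : N₂ ≤ Q := ((le_max_right _ _).trans (le_max_left _ _)).trans hQ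
  have hQ3 : 1 ≤ Q := (le_max_right _ _).trans hQ
  set N := K * Q with hN
  have hQN : Q ≤ N := Nat.le_mul_of_pos_left Q hK1
  have h3 := h1 d hd S hS s hs N (hQ1.trans hQN) Q hQ3
  have h4 := h2 N (hQ2.trans hQN)
  have hQ0 : (0 : ℝ) < Q := by exact_mod_cast hQ3
  have hNr : (N : ℝ) = K * Q := by rw [hN]; push_cast; ring
  have hN0 : (0 : ℝ) < N := by rw [hNr]; positivity
  set c := (cnt S s N 1 0 : ℝ) with hc
  have hc1 : l * N ≤ c := by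
    have e1 : c = ({n : ℕ | 1 ≤ n ∧ n ≤ N ∧ s * (n : ℤ) ∈ S}.ncard : ℝ) := by
      rw [hc, ← side_ncard hs S N]
      unfold cnt
      congr 2
      ext x
      simp only [Set.mem_ofPred_eq, modEq_iff, Nat.cast_one, one_dvd, true_and]
    rw [e1]
    exact h4
  have hc0 : 0 ≤ c := le_trans (by positivity) hc1
  set B := ((Ico Q (2 * Q)).filter (fun q => q.Coprime D)).sigma
    (fun q => (range q).filter (fun a : ℕ => cnt S s N q ((a : ℕ) : ℤ) = 0)) with hB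
  have e2 : (Miss S s d (K * Q) Q).ncard ≤ #B := by
    have hsub : Miss S s d (K * Q) Q ⊆ ((B.image (fun x : Σ _ : ℕ, ℕ => (x.1, x.2)) : Finset (ℕ × ℕ)) : Set (ℕ × ℕ)) := by
      rintro ⟨q, a⟩ ⟨g1, g2, g2', g3, g4⟩
      rw [coe_image]
      refine ⟨⟨q, a⟩, ?_, rfl⟩
      rw [mem_coe, hB, mem_sigma, mem_filter, mem_filter, mem_Ico, mem_range]
      refine ⟨⟨⟨g1, g2⟩, g2'⟩, g3, ?_⟩
      unfold cnt
      have : {x : ℤ | 0 < s * x ∧ s * x ≤ N ∧ s * x ≡ (a : ℤ) [ZMOD q] ∧ x ∈ S} = ∅ := by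
        rw [Set.eq_empty_iff_forall_notMem]
        rintro x ⟨k1, k2, k3, k4⟩
        exact g4 x k4 k1 (by rw [hN] at k2; exact k2) k3
      rw [this, Set.ncard_empty]
    exact (Set.ncard_le_ncard hsub (Finset.finite_toSet _)).trans
      (by rw [Set.ncard_coe_finset]; exact card_image_le)
  have h5 : (#B : ℝ) * (c / (2 * Q)) ^ 2 ≤ ε * l ^ 2 / 16 * N ^ 2 + 288 * Q * D * N := by
    refine le_trans ?_ h3
    have e3 : (#B : ℝ) * (c / (2 * Q)) ^ 2 = ∑ q ∈ Ico Q (2 * Q) with q.Coprime D,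
        ∑ a ∈ range q with cnt S s N q ((a : ℕ) : ℤ) = 0, (c / (2 * Q)) ^ 2 := by
      rw [hB, card_sigma]
      push_cast
      rw [sum_mul]
      apply sum_congr rfl
      intro q _
      rw [sum_const, nsmul_eq_mul]
    rw [e3]
    apply sum_le_sum
    intro q hq
    rw [mem_filter, mem_Ico] at hq
    have hq0 : (0 : ℝ) < q := by exact_mod_cast (by omega : 0 < q)
    have hq2 : (q : ℝ) ≤ 2 * Q := by exact_mod_cast hq.1.2.le
    calc ∑ a ∈ range q with cnt S s N q ((a : ℕ) : ℤ) = 0, (c / (2 * Q)) ^ 2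
        ≤ ∑ a ∈ range q with cnt S s N q ((a : ℕ) : ℤ) = 0, (dF (FS S s) N q ((a : ℕ) : ℤ)) ^ 2 := by
          apply sum_le_sum
          intro a ha
          rw [mem_filter] at ha
          rw [dF_cnt hs, ha.2, Nat.cast_zero, zero_sub, neg_sq]
          apply pow_le_pow_left₀ (by positivity)
          exact div_le_div_of_nonneg_left (by positivity) hq0 hq2
      _ ≤ ∑ a ∈ range q, (dF (FS S s) N q ((a : ℕ) : ℤ)) ^ 2 :=
          sum_le_sum_of_subset_of_nonneg (filter_subset _ _) fun _ _ _ => sq_nonneg _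
  have h6 : l / 2 * K ≤ c / (2 * Q) := by
    rw [le_div_iff₀ (by positivity)]
    rw [hNr] at hc1
    linarith
  have h7 : (#B : ℝ) * (l / 2 * K) ^ 2 ≤ ε * l ^ 2 / 16 * N ^ 2 + 288 * Q * D * N := by
    refine le_trans (mul_le_mul_of_nonneg_left ?_ (Nat.cast_nonneg _)) h5
    exact pow_le_pow_left₀ (by positivity) h6 2
  have h8 : 288 * (Q : ℝ) * D * N ≤ ε * l ^ 2 / 16 * N ^ 2 := by
    have h9 : 288 * D ≤ ε * l ^ 2 / 16 * K := by
      rw [div_le_iff₀ (by positivity)] at hKε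
      linarith
    rw [hNr]
    have h10 : 288 * D * ((Q : ℝ) * (K * Q)) ≤ (ε * l ^ 2 / 16 * K) * (Q * (K * Q)) :=
      mul_le_mul_of_nonneg_right h9 (by positivity)
    nlinarith
  have h9 : (#B : ℝ) * (l / 2 * K) ^ 2 ≤ (ε / 2 * Q ^ 2) * (l / 2 * K) ^ 2 := by
    have e4 : (ε / 2 * (Q : ℝ) ^ 2) * (l / 2 * K) ^ 2 = ε * l ^ 2 / 8 * N ^ 2 := by
      rw [hNr]; ring
    rw [e4]
    linarith
  have h10 : (#B : ℝ) ≤ ε / 2 * Q ^ 2 := le_of_mul_le_mul_right h9 (by positivity)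
  have h11 : ((Miss S s d (K * Q) Q).ncard : ℝ) ≤ #B := by exact_mod_cast e2
  have h12 : 0 ≤ ε * (Q : ℝ) ^ 2 := by positivity
  linarith

theorem dens_count {P P' : ℕ → Prop} {l : ℝ} (hl : 0 < l) (h : HD P l) (hP : ∀ n, P n → P' n) :
    ∀ᶠ N : ℕ in atTop, l / 2 * N ≤ ({n : ℕ | 1 ≤ n ∧ n ≤ N ∧ P' n}.ncard : ℝ) := by
  unfold HD at h
  filter_upwards [h.eventually (lt_mem_nhds (show l / 2 < l by linarith)), eventually_gt_atTop 0] with N h1 h2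
  have hN : (0 : ℝ) < N := by exact_mod_cast h2
  rw [lt_div_iff₀ hN] at h1
  refine h1.le.trans ?_
  have h3 : {n : ℕ | 1 ≤ n ∧ n ≤ N ∧ P n} ⊆ {n : ℕ | 1 ≤ n ∧ n ≤ N ∧ P' n} := by
    rintro n ⟨g1, g2, g3⟩
    exact ⟨g1, g2, hP n g3⟩
  have hfin : {n : ℕ | 1 ≤ n ∧ n ≤ N ∧ P' n}.Finite :=
    (Set.finite_Icc 1 N).subset (fun n hn => Set.mem_Icc.2 ⟨hn.1, hn.2.1⟩)
  exact_mod_cast Set.ncard_le_ncard h3 hfin

/-- the number of pairs -/
theorem pairs_ge {d : ℤ} (hd : d % 2 = 1) : ∃ Q₀ : ℕ, ∀ Q : ℕ, Q₀ ≤ Q → 1 / (2 * (d.natAbs : ℝ)) * Q ^ 2 ≤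
    ({p : ℕ × ℕ | Q ≤ p.1 ∧ p.1 < 2 * Q ∧ p.1.Coprime d.natAbs ∧ p.2 < p.1}.ncard : ℝ) := by
  classical
  set D := d.natAbs with hDdef
  have hD1 : 1 ≤ D := by
    rw [hDdef]
    have : d ≠ 0 := by rintro rfl; norm_num at hd
    have := Int.natAbs_pos.2 this
    omega
  have hD0 : (0 : ℝ) < D := by exact_mod_cast hD1
  refine ⟨6 * D, fun Q hQ => ?_⟩
  -- the moduli `1 + D j`
  set A : Finset ℕ := Ico (Q / D + 1) (2 * Q / D - 1) with hA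
  have hsub : (((A.image (fun j => 1 + D * j)) ×ˢ range Q : Finset (ℕ × ℕ)) : Set (ℕ × ℕ)) ⊆
      {p : ℕ × ℕ | Q ≤ p.1 ∧ p.1 < 2 * Q ∧ p.1.Coprime D ∧ p.2 < p.1} := by
    rintro ⟨q, a⟩ h
    rw [mem_coe, mem_product, mem_image, mem_range] at h
    obtain ⟨⟨j, hj, hq⟩, ha⟩ := h
    simp only at hq ha
    rw [hA, mem_Ico] at hj
    have h1 : Q ≤ D * (Q / D + 1) := by
      have := Nat.lt_mul_div_succ Q hD1
      exact this.le
    have h2 : D * (Q / D + 1) ≤ D * j := Nat.mul_le_mul_left D hj.1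
    have h3 : D * (2 * Q / D) ≤ 2 * Q := Nat.mul_div_le _ _
    have h4 : D * (j + 2) ≤ D * (2 * Q / D) := Nat.mul_le_mul_left D (by omega)
    have h5 : D * (j + 2) = D * j + 2 * D := by ring
    have h6 : q.Coprime D := by
      rw [← hq]
      have : (1 + D * j).Coprime D := by
        rw [Nat.coprime_add_mul_left_left]
        exact Nat.coprime_one_left D
      exact this
    exact ⟨by simp only; omega, by simp only; omega, h6, by simp only; omega⟩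
  have hfin : {p : ℕ × ℕ | Q ≤ p.1 ∧ p.1 < 2 * Q ∧ p.1.Coprime D ∧ p.2 < p.1}.Finite := by
    apply Set.Finite.subset (Finset.finite_toSet (range (2 * Q) ×ˢ range (2 * Q)))
    rintro ⟨q, a⟩ ⟨_, h2, _, h3⟩
    rw [mem_coe, mem_product, mem_range, mem_range]
    simp only at *
    omega
  have h1 := Set.ncard_le_ncard hsub hfin
  rw [Set.ncard_coe_finset, card_product, card_range, card_image_of_injective] at h1
  swap
  · intro a b hab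
    have : D * a = D * b := by simp only at hab; omega
    exact Nat.eq_of_mul_eq_mul_left hD1 this
  rw [hA, Nat.card_Ico] at h1
  have hQ6 : 6 * (D : ℝ) ≤ Q := by exact_mod_cast hQ
  have h2 : (Q : ℝ) / (2 * D) ≤ ((2 * Q / D - 1 - (Q / D + 1) : ℕ) : ℝ) := by
    have g1 : (2 * Q : ℝ) / D - 1 ≤ ((2 * Q / D : ℕ) : ℝ) := by
      have := Nat.lt_floor_add_one (((2 * Q : ℕ) : ℝ) / D)
      rw [Nat.floor_div_natCast, Nat.floor_natCast] at this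
      push_cast at this
      linarith
    have g2 : (((Q / D : ℕ)) : ℝ) ≤ Q / D := Nat.cast_div_le
    have g3 : ((2 * Q / D : ℕ) : ℝ) ≤ ((2 * Q / D - 1 - (Q / D + 1) : ℕ) : ℝ) + ((Q / D : ℕ) : ℝ) + 2 := by
      have : (2 * Q / D : ℕ) ≤ (2 * Q / D - 1 - (Q / D + 1)) + Q / D + 2 := by omega
      exact_mod_cast this
    have g4 : (Q : ℝ) / D = Q / (2 * D) + Q / (2 * D) := by field_simp; norm_num
    have g5 : (2 * Q : ℝ) / D = Q / D + Q / D := by ring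
    have g6 : 3 ≤ (Q : ℝ) / (2 * D) := by
      rw [le_div_iff₀ (by positivity)]
      linarith
    linarith
  have h3 : ((2 * Q / D - 1 - (Q / D + 1) : ℕ) : ℝ) * Q ≤
      ({p : ℕ × ℕ | Q ≤ p.1 ∧ p.1 < 2 * Q ∧ p.1.Coprime D ∧ p.2 < p.1}.ncard : ℝ) := by exact_mod_cast h1
  refine le_trans ?_ h3
  calc 1 / (2 * (D : ℝ)) * Q ^ 2 = Q / (2 * D) * Q := by ring
    _ ≤ _ := mul_le_mul_of_nonneg_right h2 (Nat.cast_nonneg _)

end Pool.Agent.Q37.TD
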